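import Pool.Agent.K1H65.CL.Enough

/-!
# Every `ℵ₀`-stable continuous theory has enough d-definable sets (Q2)

Let `p` be a complete `n`-type over `A ⊆ M` and let `f(x)` be a formula with parameters from `A`,
with values `≥ 0`, with `p(f) = 0` and with value `1` at a point `x₀`. Call `t` bad for `ε` if for
every `s < t` there is a point `x` with `f(x) < t` whose distance from the set `{f < s}` is at least
`ε`. For such `t` there is a limit type `q_t` with `q_t(f) = t` and of distance at least `ε` from
`{f < t}`; so the types `q_t` for different bad `t` have distance at least `ε`. As the space of types
over the parameters of `f` is separable, only countably many levels `t` are bad for some `ε`. So there is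
a decreasing sequence of levels `t_0 > t_1 > …` in `(0, 1)` such that all points of `{f < t_k}` have
distance less than `2 ^ -(k + 1)` from `{f < t_{k+1}}`, and `D = {f ≤ lim t_k}` is d-definable over
the parameters of `f`, contains the realizations of `p`, and does not contain `x₀`.
-/

set_option autoImplicit false

universe w u

namespace Pool.Agent.K1H65.NotHandedIn.AlephZeroStableEnough

open Pool.Agent.K1H65.CL

/-- Every `ℵ₀`-stable theory of continuous logic has enough d-definable sets: for every model `M` of
the theory, every `A ⊆ M` and every complete `n`-type `p` over `A`, the set `p(M)` is an
intersection of subsets of `M ^ n` which are d-definable in `M` over `A`. (The language need not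
be countable, the theory need not be complete.) -/
theorem result (L : Signature.{w}) (T : Theory.{w, u} L) (hT : Aleph0Stable T) :
    EnoughDDefinable T :=
  enough_of_aleph0Stable T hT

end Pool.Agent.K1H65.NotHandedIn.AlephZeroStableEnough
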