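import Pool.Agent.R587.VL
import Pool.Agent.R587.VocRed

/-!
# Categoricity of complete, recursively axiomatized second-order theories under `V = L`
-/

set_option autoImplicit false

namespace Pool.Agent.K1H65.NotHandedIn.CategoricalVL

open Pool.Agent.R587

/-- Assume the axiom of constructibility `V = L`. Then every complete, recursively axiomatized
second-order theory (full semantics, in a finite vocabulary with relation, function and constant
symbols) is categorical. -/
theorem result (hV : VL) {m l : ℕ} (ar : Fin m → ℕ) (af : Fin l → ℕ) (T : Set (Voc.Fo ar af))
    (hT : Voc.IsTheory T) (hc : Voc.CompleteT T) (hr : Voc.RecAx T) : Voc.CategoricalT T := by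
  have _ := hT
  obtain ⟨m', ar', T', -, h2, h3, -, h5⟩ := Voc.reduce hc hr
  exact h5 (categorical_of_VLv hV.vlv h2 h3)

end Pool.Agent.K1H65.NotHandedIn.CategoricalVL
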